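import Pool.Agent.Helper41.TWR.CHZ

/-!
Sheet TW (MP_7a8f48_an), row ALS: the sigma algebras of the levels are generated by characters.
-/

open MeasureTheory Filter Topology Finset
open scoped ComplexConjugate

namespace Pool.Agent.Helper41.TWR

open Pool.Agent.Helper98.TW
open Pool.Agent.Helper16.AZ (T mm)
open UnitAddTorus (mFourier)

variable {N : ℕ} {lev : Fin N → ℕ}

theorem AL_zero : AL lev 0 = bo := by
  have h : (tr lev 0 : T N → T N) = fun _ => 0 := by
    funext x i
    rw [tr_apply, if_neg (by omega)]
    rfl
  show MeasurableSpace.comap (tr lev 0) _ = ⊥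
  rw [h, MeasurableSpace.comap_const]

theorem AL_mono {l l' : ℕ} (h : l ≤ l') : @LE.le (MeasurableSpace (T N)) _ (AL lev l) (AL lev l') := by
  have e : (tr lev l : T N → T N) = tr lev l ∘ tr lev l' := funext fun x => (tr_tr h x).symm
  show MeasurableSpace.comap (tr lev l) _ ≤ MeasurableSpace.comap (tr lev l') _
  rw [e, ← MeasurableSpace.comap_comp]
  exact MeasurableSpace.comap_mono (measurable_tr l).comap_le

theorem AL_top {l : ℕ} (h : ∀ i, lev i < l) :
    AL lev l = (inferInstance : MeasurableSpace (T N)) := by
  have e : (tr lev l : T N → T N) = id := by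
    funext x i
    rw [tr_apply, if_pos (h i)]
    rfl
  show MeasurableSpace.comap (tr lev l) _ = _
  rw [e, MeasurableSpace.comap_id]

theorem ex_tr {l : ℕ} {a : Fin N → ℤ} (h : ∀ i, a i ≠ 0 → lev i < l) (x : T N) :
    ex a (tr lev l x) = ex a x := by
  unfold ex
  simp only [mFourier, ContinuousMap.coe_mk]
  refine Finset.prod_congr rfl fun i _ => ?_
  by_cases hi : a i = 0
  · rw [hi]
    simp
  · rw [tr_apply, if_pos (h i hi)]

theorem meas_ex {l : ℕ} {a : Fin N → ℤ} (h : ∀ i, a i ≠ 0 → lev i < l) :
    Measurable[AL lev l] (ex a : T N → ℂ) :=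
  meas_of_dep (continuous_ex a).measurable (ex_tr h)

/-- the coordinate is determined by the character -/
theorem comap_fourier : MeasurableSpace.comap (fun z : U => (fourier 1 z : ℂ))
    (inferInstance : MeasurableSpace ℂ) = (inferInstance : MeasurableSpace U) := by
  have hinj : Function.Injective (fun z : U => (fourier 1 z : ℂ)) := by
    intro z w h
    have h1 : (z.toCircle : ℂ) = (w.toCircle : ℂ) := by
      have := h
      simpa only [fourier_one] using this
    exact AddCircle.injective_toCircle one_ne_zero (Circle.ext h1)
  have hcont : Continuous (fun z : U => (fourier 1 z : ℂ)) := (fourier 1).continuous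
  exact (hcont.isClosedEmbedding hinj).measurableEmbedding.comap_eq

theorem ex_single (i : Fin N) (x : T N) : ex (Pi.single i 1) x = fourier 1 (x i) := by
  unfold ex
  simp only [mFourier, ContinuousMap.coe_mk]
  rw [Finset.prod_eq_single i]
  · rw [Pi.single_eq_same]
  · intro j _ hj
    rw [Pi.single_eq_of_ne hj]
    simp
  · intro h
    exact absurd (Finset.mem_univ i) h

theorem AL_succ (l : ℕ) : AL lev (l + 1) = jo (AL lev l) (sg (CH lev l)) := by
  refine le_antisymm (α := MeasurableSpace (T N)) ?_ ?_
  · have hm : Measurable[(jo (AL lev l) (sg (CH lev l)) : MeasurableSpace (T N))]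
        (tr lev (l + 1) : T N → T N) := by
      refine @measurable_pi_lambda _ _ _ (jo (AL lev l) (sg (CH lev l))) _ _ fun i => ?_
      by_cases h : lev i < l
      · have h1 : Measurable[AL lev l] (fun x : T N => tr lev l x i) := by
          have h2 : Measurable[AL lev l] (tr lev l : T N → T N) := comap_measurable (tr lev l)
          exact (measurable_pi_apply i).comp h2
        have e : (fun x : T N => tr lev (l + 1) x i) = fun x : T N => tr lev l x i := by
          funext x
          rw [tr_apply, tr_apply, if_pos h, if_pos (by omega)]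
        rw [e]
        exact h1.mono le_jo_left le_rfl
      · by_cases h' : lev i = l
        · have h1 : Measurable[sg (CH lev l)] (fun x : T N => x i) := by
            have h2 : Measurable[sg (CH lev l)] (ex (Pi.single i 1) : T N → ℂ) := by
              refine @Measurable.mono _ _ _ _ _ _ _ (comap_measurable _)
                (le_sg (Φ := CH lev l) ⟨Pi.single i 1, fun j hj => ?_, rfl⟩) le_rfl
              by_contra hji
              refine hj ?_
              rw [Pi.single_eq_of_ne]
              intro hij
              exact hji (by rw [hij, h'])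
            intro s hs
            have hs2 : MeasurableSet[MeasurableSpace.comap (fun z : U => (fourier 1 z : ℂ))
                (inferInstance : MeasurableSpace ℂ)] s := by
              rw [comap_fourier]
              exact hs
            obtain ⟨u, hu, rfl⟩ := hs2
            have h3 := h2 hu
            have e : (ex (Pi.single i 1) : T N → ℂ) ⁻¹' u =
                (fun x : T N => x i) ⁻¹' ((fun z : U => (fourier 1 z : ℂ)) ⁻¹' u) := by
              ext x
              show ex (Pi.single i 1) x ∈ u ↔ (fourier 1 (x i) : ℂ) ∈ u
              rw [ex_single]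
            rw [← e]
            exact h3
          have e : (fun x : T N => tr lev (l + 1) x i) = fun x : T N => x i := by
            funext x
            rw [tr_apply, if_pos (by omega)]
          rw [e]
          exact h1.mono le_jo_right le_rfl
        · have e : (fun x : T N => tr lev (l + 1) x i) = fun _ => (0 : U) := by
            funext x
            rw [tr_apply, if_neg (by omega)]
          rw [e]
          exact @measurable_const _ _ _ (jo (AL lev l) (sg (CH lev l))) (0 : U)
    exact hm.comap_le
  · refine sup_le (α := MeasurableSpace (T N)) (AL_mono (Nat.le_succ l)) ?_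
    refine iSup₂_le fun φ hφ => ?_
    obtain ⟨a, ha, rfl⟩ := hφ
    exact (meas_ex fun i hi => by rw [ha i hi]; exact Nat.lt_succ_self l).comap_le

theorem uf_ex (a : Fin N → ℤ) : UF (mm N) (ex a) :=
  ⟨(continuous_ex a).measurable, Eventually.of_forall fun x => norm_ex a x⟩

theorem grp_CH (l : ℕ) : Grp (mm N) (CH lev l) := by
  refine ⟨?_, ?_, ?_, ?_⟩
  · rintro φ ⟨a, -, rfl⟩
    exact uf_ex a
  · refine ⟨0, fun i hi => absurd rfl hi, ?_⟩
    funext x
    unfold ex
    simp [mFourier]
  · rintro φ ⟨a, ha, rfl⟩ ψ ⟨b, hb, rfl⟩
    refine ⟨a + b, fun i hi => ?_, ?_⟩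
    · by_cases h : a i = 0
      · refine hb i fun h' => hi ?_
        rw [Pi.add_apply, h, h', add_zero]
      · exact ha i h
    · funext x
      unfold ex
      simp only [mFourier, ContinuousMap.coe_mk, ← Finset.prod_mul_distrib]
      refine Finset.prod_congr rfl fun i _ => ?_
      rw [Pi.add_apply, fourier_add]
  · rintro φ ⟨a, ha, rfl⟩
    refine ⟨-a, fun i hi => ha i fun h => hi ?_, ?_⟩
    · rw [Pi.neg_apply, h, neg_zero]
    · funext x
      unfold ex
      simp only [mFourier, ContinuousMap.coe_mk, map_prod]
      refine Finset.prod_congr rfl fun i _ => ?_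
      rw [Pi.neg_apply, fourier_neg]

/-- ALS -/
theorem st_ALS : ST_ALS := by
  intro N lev
  refine ⟨AL_zero, AL_succ, lm_AL, fun l l' h => lq_of_le (AL_mono h), fun l h => AL_top h,
    grp_CH, fun l l' a h ha => ?_⟩
  exact am_of (meas_ex fun i hi => by rw [ha i hi]; exact h)

end Pool.Agent.Helper41.TWR
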