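import Pool.Agent.Helper41.TWR.Base

/-!
Sheet TW (MP_7a8f48_an), row CHZ: a nontrivial character of level `l` is orthogonal to the levels
below.
-/

open MeasureTheory Filter Topology Finset
open scoped ComplexConjugate

namespace Pool.Agent.Helper41.TWR

open Pool.Agent.Helper98.TW
open Pool.Agent.Helper16.AZ (T mm)
open UnitAddTorus (mFourier)

variable {N : ℕ} {lev : Fin N → ℕ}

theorem norm_ex (a : Fin N → ℤ) (x : T N) : ‖ex a x‖ = 1 := by
  unfold ex
  simp [mFourier]

theorem continuous_ex (a : Fin N → ℤ) : Continuous (ex a : T N → ℂ) := (mFourier a).continuous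

theorem ex_add (a : Fin N → ℤ) (x y : T N) : ex a (x + y) = ex a x * ex a y := by
  unfold ex
  simp only [mFourier, ContinuousMap.coe_mk, Pi.add_apply, fourier_apply, ← Finset.prod_mul_distrib]
  refine Finset.prod_congr rfl fun i _ => ?_
  rw [smul_add, AddCircle.toCircle_add, Circle.coe_mul]

/-- a point of level `l` at which the character is not one -/
theorem exists_ex_ne {l : ℕ} {a : Fin N → ℤ} (ha : a ≠ 0) (hl : la lev l a) :
    ∃ t : T N, (∀ i, lev i ≠ l → t i = 0) ∧ ex a t ≠ 1 := by
  obtain ⟨i, hi⟩ : ∃ i, a i ≠ 0 := by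
    by_contra h
    exact ha (funext fun i => by
      by_contra h2
      exact h ⟨i, h2⟩)
  have hli := hl i hi
  let τ : U := ((1 / (2 * (a i : ℝ)) : ℝ) : U)
  refine ⟨Pi.single i τ, fun j hj => ?_, ?_⟩
  · have : j ≠ i := fun h => hj (h ▸ hli)
    rw [Pi.single_eq_of_ne this]
  · have h1 : ex a (Pi.single i τ : T N) = fourier (a i) τ := by
      unfold ex
      simp only [mFourier, ContinuousMap.coe_mk]
      rw [Finset.prod_eq_single i]
      · rw [Pi.single_eq_same]
      · intro j _ hj
        rw [Pi.single_eq_of_ne hj, fourier_apply, smul_zero, AddCircle.toCircle_zero, Circle.coe_one]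
      · intro h
        exact absurd (Finset.mem_univ i) h
    rw [h1]
    have hai : (a i : ℝ) ≠ 0 := by exact_mod_cast hi
    have h2 : (fourier (a i) τ : ℂ) = Complex.exp (2 * Real.pi * Complex.I * a i *
        ((1 / (2 * (a i : ℝ)) : ℝ) : ℂ) / (1 : ℝ)) := by
      show (fourier (a i) (((1 / (2 * (a i : ℝ)) : ℝ) : UnitAddCircle)) : ℂ) = _
      rw [fourier_coe_apply]
    rw [h2]
    have h3 : 2 * (Real.pi : ℂ) * Complex.I * a i * ((1 / (2 * (a i : ℝ)) : ℝ) : ℂ) / (1 : ℝ) =
        Real.pi * Complex.I := by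
      have : (a i : ℂ) ≠ 0 := by exact_mod_cast hi
      push_cast
      field_simp
    rw [h3, Complex.exp_pi_mul_I]
    norm_num

/-- CHZ -/
theorem st_CHZ : ST_CHZ := by
  intro N lev l a ha hl F hF hAM
  obtain ⟨g, hg, hdep, hFg⟩ := am_AL_iff.1 hAM
  obtain ⟨t, ht, hat⟩ := exists_ex_ne ha hl
  have hm : @LE.le (MeasurableSpace (T N)) _ (AL lev l) inferInstance := lm_AL l
  have hgi : Integrable g (mm N) := hF.congr hFg
  have hint : Integrable (fun x => ex a x * F x) (mm N) := by
    refine hF.bdd_mul (c := 1) (continuous_ex a).aestronglyMeasurable (Eventually.of_forall fun x => ?_)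
    rw [norm_ex]
  have htr : ∀ x, tr lev l (x + t) = tr lev l x := by
    intro x
    funext i
    simp only [tr_apply]
    by_cases h : lev i < l
    · rw [if_pos h, if_pos h, Pi.add_apply, ht i (by omega), add_zero]
    · rw [if_neg h, if_neg h]
  refine (ae_eq_condExp_of_forall_setIntegral_eq hm hint (g := fun _ => (0 : ℂ))
    (fun s _ _ => integrableOn_zero) (fun s hs _ => ?_)
    (@stronglyMeasurable_const _ _ (AL lev l) _ (0 : ℂ)).aestronglyMeasurable).symm
  rw [integral_zero]
  have hs' : MeasurableSet s := hm s hs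
  have hind : ∀ x, s.indicator (fun _ => (1 : ℂ)) (x + t) = s.indicator (fun _ => (1 : ℂ)) x := by
    intro x
    refine dep_of_meas (lev := lev) (l := l) ?_ (htr x)
    exact (@measurable_const _ _ _ (AL lev l) (1 : ℂ)).indicator hs
  have hgt : ∀ x, g (x + t) = g x := by
    intro x
    rw [← hdep (x + t), htr, hdep]
  have e1 : ∫ x in s, ex a x * F x ∂(mm N) =
      ∫ x, ex a x * (g x * s.indicator (fun _ => (1 : ℂ)) x) ∂(mm N) := by
    rw [← integral_indicator hs']
    refine integral_congr_ae ?_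
    filter_upwards [hFg] with x hx
    by_cases h : x ∈ s
    · rw [Set.indicator_of_mem h, Set.indicator_of_mem h, hx, mul_one]
    · rw [Set.indicator_of_notMem h, Set.indicator_of_notMem h, mul_zero, mul_zero]
  rw [e1]
  have e2 : ∫ x, ex a x * (g x * s.indicator (fun _ => (1 : ℂ)) x) ∂(mm N) =
      ex a t * ∫ x, ex a x * (g x * s.indicator (fun _ => (1 : ℂ)) x) ∂(mm N) := by
    rw [← integral_const_mul, ← integral_add_right_eq_self _ t]
    refine integral_congr_ae (Eventually.of_forall fun x => ?_)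
    show ex a (x + t) * (g (x + t) * s.indicator (fun _ => (1 : ℂ)) (x + t)) = _
    rw [ex_add, hgt, hind]
    ring
  have e3 : (1 - ex a t) * ∫ x, ex a x * (g x * s.indicator (fun _ => (1 : ℂ)) x) ∂(mm N) = 0 := by
    rw [sub_mul, one_mul, ← e2, sub_self]
  rcases mul_eq_zero.1 e3 with h | h
  · exact absurd (sub_eq_zero.1 h).symm hat
  · exact h.symm

end Pool.Agent.Helper41.TWR
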