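import Pool.Agent.Helper41.TWR.Base

/-!
Sheet TW (MP_7a8f48_an), row IAL: the sigma algebras of the levels are invariant.
-/

open MeasureTheory Filter Topology Finset
open scoped ComplexConjugate

namespace Pool.Agent.Helper41.TWR

open Pool.Agent.Helper98.TW
open Pool.Agent.Helper16.AZ (T mm)

variable {N : ℕ} {lev : Fin N → ℕ}

theorem am_comp_SS {f : Fin N → T N → U} (hf : Tow lev f)
    (hmp : MeasurePreserving (SS f) (mm N) (mm N)) (l : ℕ) {F : T N → ℂ}
    (hF : AM (mm N) (AL lev l) F) : AM (mm N) (AL lev l) (fun x => F (SS f x)) := by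
  obtain ⟨g, hg, hdep, hFg⟩ := am_AL_iff.1 hF
  refine am_AL_iff.2 ⟨fun x => g (SS f x), hg.comp hmp.measurable, fun x => ?_, ae_comp hmp hFg⟩
  show g (SS f (tr lev l x)) = g (SS f x)
  rw [← hdep (SS f (tr lev l x)), tr_SS hf, hdep]

/-- IAL -/
theorem st_IAL (h : ST_MPS) : ST_IAL := by
  intro N lev f f' hT l m
  have hS : Sys (mm N) (SS f) (SS f') := by
    have := h N lev f f' hT 1
    simpa only [Function.iterate_one] using this
  have h1 : IA (mm N) (AL lev l) (SS f) (SS f') :=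
    ⟨lm_AL l, fun F hF => ⟨am_comp_SS hT.t hS.mp l hF, am_comp_SS hT.t' hS.mp' l hF⟩⟩
  exact h1.iterate m

end Pool.Agent.Helper41.TWR
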