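import Pool.Agent.Helper41.TWR.Base

/-!
Sheet TW (MP_7a8f48_an), row INV: the inverse of a tower is a tower.
-/

open MeasureTheory Filter Topology Finset
open scoped ComplexConjugate

namespace Pool.Agent.Helper41.TWR

open Pool.Agent.Helper98.TW
open Pool.Agent.Helper16.AZ (T mm)

variable {N : ℕ} {lev : Fin N → ℕ}

/-- the coordinates of the levels `< l` of the inverse image -/
noncomputable def iv (lev : Fin N → ℕ) (f : Fin N → T N → U) : ℕ → T N → T N
  | 0 => fun _ => 0
  | l + 1 => fun y i => if lev i < l + 1 then y i - f i (iv lev f l y) else 0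

theorem measurable_iv {f : Fin N → T N → U} (hf : ∀ i, Measurable (f i)) :
    ∀ l, Measurable (iv lev f l)
  | 0 => measurable_const
  | l + 1 => by
    refine measurable_pi_lambda _ fun i => ?_
    show Measurable fun y : T N => if lev i < l + 1 then y i - f i (iv lev f l y) else 0
    by_cases h : lev i < l + 1
    · simp only [if_pos h]
      exact (measurable_pi_apply i).sub ((hf i).comp (measurable_iv hf l))
    · simp only [if_neg h]
      exact measurable_const

theorem iv_tr {f : Fin N → T N → U} : ∀ (l m : ℕ), l ≤ m → ∀ y : T N,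
    iv lev f l (tr lev m y) = iv lev f l y
  | 0, _, _, _ => rfl
  | l + 1, m, h, y => by
    funext i
    show (if lev i < l + 1 then tr lev m y i - f i (iv lev f l (tr lev m y)) else 0) =
      if lev i < l + 1 then y i - f i (iv lev f l y) else 0
    by_cases hi : lev i < l + 1
    · rw [if_pos hi, if_pos hi, iv_tr l m (by omega) y, tr_apply, if_pos (by omega)]
    · rw [if_neg hi, if_neg hi]

theorem iv_SS {f : Fin N → T N → U} (hf : Tow lev f) (x : T N) : ∀ l : ℕ,
    iv lev f l (SS f x) = tr lev l x
  | 0 => by
    funext i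
    show (0 : U) = tr lev 0 x i
    rw [tr_apply, if_neg (by omega)]
  | l + 1 => by
    funext i
    show (if lev i < l + 1 then SS f x i - f i (iv lev f l (SS f x)) else 0) = tr lev (l + 1) x i
    rw [tr_apply, iv_SS hf x l]
    by_cases hi : lev i < l + 1
    · rw [if_pos hi, if_pos hi, dep_le hf (by omega)]
      show x i + f i x - f i x = x i
      rw [add_sub_cancel_right]
    · rw [if_neg hi, if_neg hi]

/-- the left inverse -/
theorem left_inv {f : Fin N → T N → U} (hf : Tow lev f) :
    ∃ f' : Fin N → T N → U, Tow lev f' ∧ ∀ x, SS f' (SS f x) = x := by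
  refine ⟨fun i y => -f i (iv lev f (lev i) y), ⟨fun i => ?_, fun i x => ?_⟩, fun x => ?_⟩
  · exact ((hf.meas i).comp (measurable_iv hf.meas (lev i))).neg
  · show -f i (iv lev f (lev i) (tr lev (lev i) x)) = -f i (iv lev f (lev i) x)
    rw [iv_tr _ _ le_rfl]
  · funext i
    show x i + f i x + -f i (iv lev f (lev i) (SS f x)) = x i
    rw [iv_SS hf, hf.dep, add_neg_cancel_right]

/-- INV -/
theorem st_INV : ST_INV := by
  intro N lev f hf
  obtain ⟨f', hf', h⟩ := left_inv hf
  obtain ⟨f'', -, h'⟩ := left_inv hf'
  have e : SS f'' = SS f := by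
    funext x
    have h1 := h' (SS f x)
    rw [h x] at h1
    exact h1
  exact ⟨f', hf, hf', h, fun x => by rw [← e]; exact h' x⟩

end Pool.Agent.Helper41.TWR
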