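import Pool.Agent.Helper41.TWR.ALS
import Pool.Agent.Helper53.TWR.Base
import Pool.Agent.Helper73.TWR.Tool
import Pool.Agent.Helper99.TWR.TRM

/-!
Sheet TW (MP_7a8f48_an): shared lemmas on joinings for the rows JG1, JG2, JD0, HDV.
-/

set_option linter.unusedSectionVars false

open MeasureTheory Filter Topology Finset
open scoped ComplexConjugate

namespace Pool.Agent.Helper41.TWR

open Pool.Agent.Helper98.TW
open Pool.Agent.Helper16.AZ (T mm)
open Pool.Agent.Helper73.TWR (AB)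

section cmjo

variable {Ω Ω' : Type} [MeasurableSpace Ω] {π : Ω → Ω'}

theorem cm_jo (𝒜 ℬ : SA Ω') : cm π (jo 𝒜 ℬ) = jo (cm π 𝒜) (cm π ℬ) :=
  MeasurableSpace.comap_sup

theorem cm_sg (Φ : Set (Ω' → ℂ)) : cm π (sg Φ) = sg ((fun (φ : Ω' → ℂ) z => φ (π z)) '' Φ) := by
  have e2 : cm π (sg Φ) = (⨆ φ ∈ Φ, MeasurableSpace.comap π
      (MeasurableSpace.comap φ (inferInstance : MeasurableSpace ℂ)) : MeasurableSpace Ω) := by
    show MeasurableSpace.comap _ (⨆ φ ∈ Φ, _) = _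
    simp only [MeasurableSpace.comap_iSup]
  rw [e2]
  refine le_antisymm (α := MeasurableSpace Ω) (iSup₂_le fun φ hφ => ?_) (iSup₂_le fun φ hφ => ?_)
  · rw [MeasurableSpace.comap_comp]
    exact le_sg (Φ := (fun (φ : Ω' → ℂ) z => φ (π z)) '' Φ) (φ := fun z => φ (π z)) ⟨φ, hφ, rfl⟩
  · obtain ⟨g, hg, rfl⟩ := hφ
    refine le_iSup₂_of_le (α := MeasurableSpace Ω) g hg ?_
    rw [MeasurableSpace.comap_comp]
    exact le_rfl

end cmjo

variable {N : ℕ} {lev : Fin N → ℕ} {f f' : Fin N → T N → U} {p q : ℕ}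
  {κ : Measure (T N × T N)} {j : ℕ}

theorem mp1 (h : JN f p q κ) : MeasurePreserving Prod.fst κ (mm N) := ⟨measurable_fst, h.fst⟩

theorem mp2 (h : JN f p q κ) : MeasurePreserving Prod.snd κ (mm N) := ⟨measurable_snd, h.snd⟩

theorem lm_A1 (l : ℕ) : Lm (A1 lev l) := lm_cm measurable_fst (lm_AL l)

theorem lm_B1 (l : ℕ) : Lm (B1 lev l) := lm_cm measurable_snd (lm_AL l)

theorem lm_BB : Lm (BB N) := lm_cm measurable_snd (fun _ h => h)

theorem B1_succ (j : ℕ) : B1 lev (j + 1) =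
    jo (B1 lev j) (sg ((fun (φ : T N → ℂ) (z : T N × T N) => φ z.2) '' CH lev j)) := by
  unfold B1
  rw [AL_succ, cm_jo, cm_sg]

theorem A1_succ (j : ℕ) : A1 lev (j + 1) =
    jo (A1 lev j) (sg ((fun (φ : T N → ℂ) (z : T N × T N) => φ z.1) '' CH lev j)) := by
  unfold A1
  rw [AL_succ, cm_jo, cm_sg]

theorem B1_mono {l l' : ℕ} (h : l ≤ l') :
    @LE.le (MeasurableSpace (T N × T N)) _ (B1 lev l) (B1 lev l') :=
  MeasurableSpace.comap_mono (AL_mono h)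

theorem A1_mono {l l' : ℕ} (h : l ≤ l') :
    @LE.le (MeasurableSpace (T N × T N)) _ (A1 lev l) (A1 lev l') :=
  MeasurableSpace.comap_mono (AL_mono h)

theorem B1_top {l : ℕ} (h : ∀ i, lev i < l) : B1 lev l = BB N := by
  unfold B1 BB
  rw [AL_top h]

theorem grp2 (h : JN f p q κ) (j : ℕ) :
    Grp κ ((fun (φ : T N → ℂ) (z : T N × T N) => φ z.2) '' CH lev j) := by
  have hg := grp_CH (lev := lev) j
  constructor
  · rintro _ ⟨φ, hφ, rfl⟩
    exact (hg.uf φ hφ).comp (mp2 h)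
  · exact ⟨_, hg.one, rfl⟩
  · rintro _ ⟨φ, hφ, rfl⟩ _ ⟨ψ, hψ, rfl⟩
    exact ⟨_, hg.mul φ hφ ψ hψ, rfl⟩
  · rintro _ ⟨φ, hφ, rfl⟩
    exact ⟨_, hg.inv φ hφ, rfl⟩

theorem grp1 (h : JN f p q κ) (j : ℕ) :
    Grp κ ((fun (φ : T N → ℂ) (z : T N × T N) => φ z.1) '' CH lev j) := by
  have hg := grp_CH (lev := lev) j
  constructor
  · rintro _ ⟨φ, hφ, rfl⟩
    exact (hg.uf φ hφ).comp (mp1 h)
  · exact ⟨_, hg.one, rfl⟩
  · rintro _ ⟨φ, hφ, rfl⟩ _ ⟨ψ, hψ, rfl⟩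
    exact ⟨_, hg.mul φ hφ ψ hψ, rfl⟩
  · rintro _ ⟨φ, hφ, rfl⟩
    exact ⟨_, hg.inv φ hφ, rfl⟩

/-- increments of the characters of the second coordinate -/
theorem inc2 (hT : TI lev f f') (h : JN f p q κ) (hI : IA (mm N) (AL lev j) (SS f) (SS f'))
    (hS : Sys (mm N) (SS f) (SS f')) {b : Fin N → ℤ} (hb : la lev j b) :
    AM κ (B1 lev j) (fun z => ex b ((SS f)^[q] z.2) * conj (ex b z.2)) :=
  have := h.prob
  Pool.Agent.Helper53.TWR.am_cm (mp2 h) (Pool.Agent.Helper53.TWR.inc_ex hT hb hI hS q)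

/-- increments of the characters of the first coordinate -/
theorem inc1 (hT : TI lev f f') (h : JN f p q κ) (hI : IA (mm N) (AL lev j) (SS f) (SS f'))
    (hS : Sys (mm N) (SS f) (SS f')) {b : Fin N → ℤ} (hb : la lev j b) :
    AM κ (A1 lev j) (fun z => ex b ((SS f)^[p] z.1) * conj (ex b z.1)) :=
  have := h.prob
  Pool.Agent.Helper53.TWR.am_cm (mp1 h) (Pool.Agent.Helper53.TWR.inc_ex hT hb hI hS p)

end Pool.Agent.Helper41.TWR
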