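import Pool.Agent.Helper41.TWR.Joi

/-!
Sheet TW (MP_7a8f48_an), row JG1: functions of the levels `< l` see only the levels `< l` of the
second coordinate.
-/

set_option linter.unusedSectionVars false

open MeasureTheory Filter Topology Finset
open scoped ComplexConjugate

namespace Pool.Agent.Helper41.TWR

open Pool.Agent.Helper98.TW
open Pool.Agent.Helper16.AZ (T mm)
open Pool.Agent.Helper73.TWR

variable {N : ℕ} {lev : Fin N → ℕ} {f f' : Fin N → T N → U} {p q : ℕ}
  {κ : Measure (T N × T N)} {j : ℕ}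

/-- one level -/
theorem jg1_step (hLZ : ST_LZ) (hDNS : ST_DNS) (hTRM : ST_TRM) (hMPS : ST_MPS) (hIAL : ST_IAL)
    (hT : TI lev f f') (hJ : JN f p q κ)
    (hX : ∀ (l : ℕ) (a : Fin N → ℤ), a ≠ 0 → la lev l a → ∀ j ≤ l,
      ¬ AM κ (jo (A1 lev j) (B1 lev l)) (fun z => ex a z.2))
    {l : ℕ} {F : T N → ℂ} (hF : BF F) (hA : AM (mm N) (AL lev l) F) {j : ℕ} (hj : l ≤ j) :
    κ[fun z => F z.1|B1 lev (j + 1)] =ᵐ[κ] κ[fun z => F z.1|B1 lev j] := by
  have hP := hJ.prob
  obtain ⟨-, -, -, hSκ, hIAκ, -⟩ := hTRM N lev f f' p q κ hT hJ l j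
  have hS1 : Sys (mm N) (SS f) (SS f') := by
    have := hMPS N lev f f' hT 1
    simpa using this
  have hI1 : IA (mm N) (AL lev j) (SS f) (SS f') := by
    have := hIAL N lev f f' hT j 1
    simpa using this
  have lB := lm_B1 (lev := lev) j
  have lB' := lm_B1 (lev := lev) (j + 1)
  have lJ : Lm (jo (A1 lev l) (B1 lev j)) := lm_jo (lm_A1 l) lB
  have hFab : AB κ (fun z : T N × T N => F z.1) := hF.ab.comp (mp1 hJ)
  have hFA : AM κ (jo (A1 lev l) (B1 lev j)) (fun z => F z.1) :=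
    am_jo_left (Pool.Agent.Helper53.TWR.am_cm (mp1 hJ) hA)
  have hle : LQ κ (B1 lev j) (B1 lev (j + 1)) := lq_of_le (B1_mono (Nat.le_succ j))
  -- the difference
  have hE1 : AB κ (κ[fun z => F z.1|B1 lev (j + 1)]) := hFab.ce lB'
  have hE0 : AB κ (κ[fun z => F z.1|B1 lev j]) := hFab.ce lB
  have key : (fun z => (κ[fun z => F z.1|B1 lev (j + 1)]) z - (κ[fun z => F z.1|B1 lev j]) z)
      =ᵐ[κ] 0 := by
    refine hDNS _ κ (B1 lev j)
      ((fun (φ : T N → ℂ) (z : T N × T N) => φ z.2) '' CH lev j) _ lB (grp2 hJ j)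
      (hE1.sub hE0).int ?_ ?_
    · rw [← B1_succ]
      exact am_sub ce_am (hle _ ce_am)
    · rintro _ ⟨_, ⟨b, hb, rfl⟩, rfl⟩
      have hφ : UF κ (fun z : T N × T N => ex b z.2) := (uf_ex b).comp (mp2 hJ)
      have hφm : AM κ (B1 lev (j + 1)) (fun z : T N × T N => ex b z.2) := by
        rw [B1_succ]
        exact am_jo_right (am_sg ⟨ex b, ⟨b, hb, rfl⟩, rfl⟩)
      have hcφ : AB κ (fun z : T N × T N => conj (ex b z.2)) := hφ.ab.conj
      -- split
      have e1 : κ[fun z => ((κ[fun z => F z.1|B1 lev (j + 1)]) z -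
          (κ[fun z => F z.1|B1 lev j]) z) * conj (ex b z.2)|B1 lev j] =ᵐ[κ]
          fun z => (κ[fun z => conj (ex b z.2) * F z.1|B1 lev j]) z -
            (κ[fun z => F z.1|B1 lev j]) z * (κ[fun z => conj (ex b z.2)|B1 lev j]) z := by
        have s1 : κ[fun z => conj (ex b z.2) * F z.1|B1 lev (j + 1)] =ᵐ[κ]
            fun z => conj (ex b z.2) * (κ[fun z => F z.1|B1 lev (j + 1)]) z :=
          pullb (am_conj hφm) hcφ hFab.int
        have s2 := ce_tower (μ := κ) (F := fun z => conj (ex b z.2) * F z.1) lB lB' hle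
          (hcφ.mul hFab).int
        have s3 : κ[κ[fun z => conj (ex b z.2) * F z.1|B1 lev (j + 1)]|B1 lev j] =ᵐ[κ]
            κ[fun z => conj (ex b z.2) * (κ[fun z => F z.1|B1 lev (j + 1)]) z|B1 lev j] :=
          ce_congr s1
        have s4 : κ[fun z => (κ[fun z => F z.1|B1 lev j]) z * conj (ex b z.2)|B1 lev j] =ᵐ[κ]
            fun z => (κ[fun z => F z.1|B1 lev j]) z * (κ[fun z => conj (ex b z.2)|B1 lev j]) z :=
          pullb ce_am hE0 hcφ.int
        have s5 : κ[fun z => conj (ex b z.2) * (κ[fun z => F z.1|B1 lev (j + 1)]) z -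
            (κ[fun z => F z.1|B1 lev j]) z * conj (ex b z.2)|B1 lev j] =ᵐ[κ] fun z =>
            (κ[fun z => conj (ex b z.2) * (κ[fun z => F z.1|B1 lev (j + 1)]) z|B1 lev j]) z -
            (κ[fun z => (κ[fun z => F z.1|B1 lev j]) z * conj (ex b z.2)|B1 lev j]) z :=
          ce_sub (hcφ.mul hE1).int (hE0.mul hcφ).int
        have s6 : κ[fun z => ((κ[fun z => F z.1|B1 lev (j + 1)]) z -
            (κ[fun z => F z.1|B1 lev j]) z) * conj (ex b z.2)|B1 lev j] =ᵐ[κ]
            κ[fun z => conj (ex b z.2) * (κ[fun z => F z.1|B1 lev (j + 1)]) z -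
            (κ[fun z => F z.1|B1 lev j]) z * conj (ex b z.2)|B1 lev j] := by
          refine ce_congr (Eventually.of_forall fun z => ?_)
          ring
        filter_upwards [s2, s3, s4, s5, s6] with z h2 h3 h4 h5 h6
        rw [h6, h5, h4, ← h3, h2]
      by_cases hb0 : b = 0
      · subst hb0
        have c1 : (fun z : T N × T N => conj (ex (0 : Fin N → ℤ) z.2)) = fun _ => 1 := by
          funext z
          rw [Pool.Agent.Helper53.TWR.ex_zero, map_one]
        have c2 : κ[fun z => conj (ex (0 : Fin N → ℤ) z.2) * F z.1|B1 lev j] =ᵐ[κ]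
            κ[fun z => F z.1|B1 lev j] := by
          refine ce_congr (Eventually.of_forall fun z => ?_)
          show conj (ex (0 : Fin N → ℤ) z.2) * F z.1 = F z.1
          rw [Pool.Agent.Helper53.TWR.ex_zero, map_one, one_mul]
        have c3 : κ[fun z => conj (ex (0 : Fin N → ℤ) z.2)|B1 lev j] =ᵐ[κ] fun _ => 1 := by
          rw [c1]
          exact ce_of_am lB (integrable_const 1) (am_const 1)
        filter_upwards [e1, c2, c3] with z h1 h2 h3
        rw [h1, h2, h3, mul_one, sub_self]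
        rfl
      · -- the zero one law
        have hinc : Inc κ (jo (A1 lev l) (B1 lev j)) (Prod.map (SS f)^[p] (SS f)^[q])
            (fun z => ex b z.2) := am_jo_right (inc2 hT hJ hI1 hS1 hb)
        have hz : κ[fun z => ex b z.2|jo (A1 lev l) (B1 lev j)] =ᵐ[κ] 0 :=
          (hLZ _ κ _ _ _ _ hSκ hJ.erg hIAκ hφ hinc).resolve_right (hX j b hb0 hb l hj)
        have hz' : κ[fun z => conj (ex b z.2)|jo (A1 lev l) (B1 lev j)] =ᵐ[κ] 0 := by
          have hinc' := Inc.conj hinc
          refine (hLZ _ κ _ _ _ _ hSκ hJ.erg hIAκ hφ.conj hinc').resolve_right fun h => ?_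
          refine hX j b hb0 hb l hj (am_congr (am_conj h) (Eventually.of_forall fun z => ?_))
          exact Complex.conj_conj _
        have z1 : κ[fun z => F z.1 * conj (ex b z.2)|jo (A1 lev l) (B1 lev j)] =ᵐ[κ] 0 :=
          ce_mul_zero hFA (hFab.mul hcφ).int hcφ.int hz'
        have z2 : κ[fun z => F z.1 * conj (ex b z.2)|B1 lev j] =ᵐ[κ] 0 :=
          ce_zero_lq lB lJ (lq_of_le le_jo_right) (hFab.mul hcφ).int z1
        have z3 : κ[fun z => conj (ex b z.2)|B1 lev j] =ᵐ[κ] 0 :=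
          ce_zero_lq lB lJ (lq_of_le le_jo_right) hcφ.int hz'
        have z4 : κ[fun z => conj (ex b z.2) * F z.1|B1 lev j] =ᵐ[κ]
            κ[fun z => F z.1 * conj (ex b z.2)|B1 lev j] :=
          ce_congr (Eventually.of_forall fun z => mul_comm _ _)
        filter_upwards [e1, z2, z3, z4] with z h1 h2 h3 h4
        rw [h1, h4, h2, h3]
        simp
  filter_upwards [key] with z hz
  exact sub_eq_zero.1 hz

/-- JG1 -/
theorem st_JG1 (hLZ : ST_LZ) (hDNS : ST_DNS) (hTRM : ST_TRM) (hMPS : ST_MPS)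
    (hIAL : ST_IAL) : ST_JG1 := by
  intro N lev f f' p q κ hT hJ hX l F hF hA
  have key : ∀ d : ℕ, κ[fun z => F z.1|B1 lev (l + d)] =ᵐ[κ] κ[fun z => F z.1|B1 lev l] := by
    intro d
    induction d with
    | zero => exact EventuallyEq.rfl
    | succ d ih =>
      exact (jg1_step hLZ hDNS hTRM hMPS hIAL hT hJ hX hF hA (Nat.le_add_right l d)).trans ih
  have htop : ∀ i, lev i < l + (∑ i, lev i + 1) := by
    intro i
    have : lev i ≤ ∑ i, lev i := Finset.single_le_sum (fun _ _ => Nat.zero_le _) (mem_univ i)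
    omega
  have := key (∑ i, lev i + 1)
  rwa [B1_top htop] at this

end Pool.Agent.Helper41.TWR
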