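import Pool.Agent.Helper41.TWR.JG1
import Pool.Agent.Helper41.TWR.CHZ
import Pool.Agent.Helper96.TWR.PFC

/-!
Sheet TW (MP_7a8f48_an), row JG2: gradedness.
-/

set_option linter.unusedSectionVars false

open MeasureTheory Filter Topology Finset
open scoped ComplexConjugate

namespace Pool.Agent.Helper41.TWR

open Pool.Agent.Helper98.TW
open Pool.Agent.Helper16.AZ (T mm)
open Pool.Agent.Helper73.TWR
open UnitAddTorus (mFourier)

section par

variable {N : ℕ}

/-- the Fourier coefficients -/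
noncomputable def fco (F : T N → ℂ) (c : Fin N → ℤ) : ℂ := ∫ x, conj (ex c x) * F x ∂(mm N)

theorem fco_eq {F : T N → ℂ} (hF : MemLp F 2 (mm N)) (c : Fin N → ℤ) :
    UnitAddTorus.mFourierCoeff (hF.toLp F : T N → ℂ) c = fco F c := by
  show (∫ x, mFourier (-c) x • (hF.toLp F : T N → ℂ) x ∂(mm N)) = _
  unfold fco
  refine integral_congr_ae ?_
  filter_upwards [hF.coeFn_toLp] with x hx
  rw [hx, smul_eq_mul, UnitAddTorus.mFourier_neg]
  rfl

theorem parseval {F G : T N → ℂ} (hF : MemLp F 2 (mm N)) (hG : MemLp G 2 (mm N)) :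
    HasSum (fun c : Fin N → ℤ => conj (fco F c) * fco G c) (∫ x, conj (F x) * G x ∂(mm N)) := by
  have h : HasSum (fun c : Fin N → ℤ =>
      conj (UnitAddTorus.mFourierCoeff (hF.toLp F : T N → ℂ) c) *
        UnitAddTorus.mFourierCoeff (hG.toLp G : T N → ℂ) c)
      (∫ x, conj ((hF.toLp F : T N → ℂ) x) * (hG.toLp G : T N → ℂ) x ∂(mm N)) :=
    UnitAddTorus.hasSum_prod_mFourierCoeff (d := Fin N) (hF.toLp F) (hG.toLp G)
  have h2 : (∫ x, conj ((hF.toLp F : T N → ℂ) x) * (hG.toLp G : T N → ℂ) x ∂(mm N)) =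
      ∫ x, conj (F x) * G x ∂(mm N) := by
    refine integral_congr_ae ?_
    filter_upwards [hF.coeFn_toLp, hG.coeFn_toLp] with x hx hx'
    rw [hx, hx']
  simp only [fco_eq hF, fco_eq hG] at h
  rwa [h2] at h

theorem parseval_zero {F G : T N → ℂ} (hF : MemLp F 2 (mm N)) (hG : MemLp G 2 (mm N))
    (h : ∀ c, fco F c = 0 ∨ fco G c = 0) : ∫ x, F x * conj (G x) ∂(mm N) = 0 := by
  have h1 := parseval hG hF
  have h2 : (fun c : Fin N → ℤ => conj (fco G c) * fco F c) = fun _ => 0 := by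
    funext c
    rcases h c with h | h <;> simp [h]
  rw [h2] at h1
  have h3 := h1.unique hasSum_zero
  rw [← h3]
  refine integral_congr_ae (Eventually.of_forall fun x => ?_)
  exact mul_comm _ _

/-- a point on one coordinate at which the character is not one -/
theorem exists_ex_ne' {a : Fin N → ℤ} {i : Fin N} (hi : a i ≠ 0) :
    ∃ t : T N, (∀ j, j ≠ i → t j = 0) ∧ ex a t ≠ 1 := by
  have h := exists_ex_ne (lev := fun j => if j = i then 0 else 1) (l := 0)
    (a := fun j => if j = i then a i else 0) (fun h => hi (by simpa using congrFun h i)) (by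
      intro j hj
      by_contra h
      have hji : j ≠ i := fun h' => h (by simp [h'])
      exact hj (by simp [hji]))
  obtain ⟨t, ht, hat⟩ := h
  have ht' : ∀ j, j ≠ i → t j = 0 := fun j hj => ht j (by simp [hj])
  refine ⟨t, ht', ?_⟩
  have e : ex a t = ex (fun j => if j = i then a i else 0) t := by
    unfold ex
    simp only [mFourier, ContinuousMap.coe_mk]
    refine Finset.prod_congr rfl fun j _ => ?_
    by_cases hj : j = i
    · subst hj
      rw [if_pos rfl]
    · rw [if_neg hj, ht' j hj, fourier_apply, fourier_apply, smul_zero, smul_zero]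
  rw [e]
  exact hat

/-- the Fourier coefficients of a function of the levels `< l` -/
theorem fco_zero {lev : Fin N → ℕ} {l : ℕ} {F : T N → ℂ} (hF : AM (mm N) (AL lev l) F)
    {c : Fin N → ℤ} {i : Fin N} (hi : c i ≠ 0) (hl : l ≤ lev i) : fco F c = 0 := by
  obtain ⟨g, -, hdep, hFg⟩ := am_AL_iff.1 hF
  obtain ⟨t, ht, hct⟩ := exists_ex_ne' hi
  have htr : ∀ x, tr lev l (x + t) = tr lev l x := by
    intro x
    funext j
    simp only [tr_apply]
    by_cases h : lev j < l
    · have hj : j ≠ i := fun h' => absurd h (by rw [h']; omega)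
      rw [if_pos h, if_pos h, Pi.add_apply, ht j hj, add_zero]
    · rw [if_neg h, if_neg h]
  have hgt : ∀ x, g (x + t) = g x := by
    intro x
    rw [← hdep (x + t), htr, hdep]
  have e1 : fco F c = ∫ x, conj (ex c x) * g x ∂(mm N) := by
    refine integral_congr_ae ?_
    filter_upwards [hFg] with x hx
    rw [hx]
  have e2 : ∫ x, conj (ex c x) * g x ∂(mm N) =
      conj (ex c t) * ∫ x, conj (ex c x) * g x ∂(mm N) := by
    rw [← integral_const_mul, ← integral_add_right_eq_self _ t]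
    refine integral_congr_ae (Eventually.of_forall fun x => ?_)
    show conj (ex c (x + t)) * g (x + t) = _
    rw [ex_add, hgt, map_mul]
    ring
  have e3 : (1 - conj (ex c t)) * ∫ x, conj (ex c x) * g x ∂(mm N) = 0 := by
    rw [sub_mul, one_mul, ← e2, sub_self]
  rw [e1]
  rcases mul_eq_zero.1 e3 with h | h
  · refine absurd ?_ hct
    have h4 := congrArg conj (sub_eq_zero.1 h).symm
    rwa [Complex.conj_conj, map_one] at h4
  · exact h

end par

section main

variable {N : ℕ} {lev : Fin N → ℕ} {f f' : Fin N → T N → U} {p q : ℕ}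
  {κ : Measure (T N × T N)}

/-- the component of the character `b` of a conditional expectation -/
theorem comp_zero (hLZ : ST_LZ) (hTRM : ST_TRM) (hMPS : ST_MPS) (hIAL : ST_IAL)
    (hT : TI lev f f') (hJ : JN f p q κ) {l : ℕ} {a b : Fin N → ℤ} (ha : la lev l a)
    (hb : la lev l b) {F : T N → ℂ} (hF : BF F) (hA : AM (mm N) (AL lev l) F)
    (h : ¬ AM κ (jo (A1 lev l) (B1 lev l)) (fun z => ex a z.1 * conj (ex b z.2))) :
    κ[fun z => conj (ex b z.2) * (κ[fun z => ex a z.1 * F z.1|BB N]) z|B1 lev l] =ᵐ[κ] 0 := by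
  have hP := hJ.prob
  obtain ⟨-, -, -, hSκ, hIAκ, -⟩ := hTRM N lev f f' p q κ hT hJ l l
  have hS1 : Sys (mm N) (SS f) (SS f') := by
    have := hMPS N lev f f' hT 1
    simpa using this
  have hI1 : IA (mm N) (AL lev l) (SS f) (SS f') := by
    have := hIAL N lev f f' hT l 1
    simpa using this
  have lB := lm_B1 (lev := lev) l
  have lJ : Lm (jo (A1 lev l) (B1 lev l)) := lm_jo (lm_A1 l) lB
  have hFab : AB κ (fun z : T N × T N => F z.1) := hF.ab.comp (mp1 hJ)
  have hFA : AM κ (jo (A1 lev l) (B1 lev l)) (fun z => F z.1) :=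
    am_jo_left (Pool.Agent.Helper53.TWR.am_cm (mp1 hJ) hA)
  have ha1 : UF κ (fun z : T N × T N => ex a z.1) := (uf_ex a).comp (mp1 hJ)
  have hb2 : UF κ (fun z : T N × T N => ex b z.2) := (uf_ex b).comp (mp2 hJ)
  have hψ : UF κ (fun z : T N × T N => ex a z.1 * conj (ex b z.2)) := ha1.mul hb2.conj
  have i1 : Inc κ (jo (A1 lev l) (B1 lev l)) (Prod.map (SS f)^[p] (SS f)^[q])
      (fun z => ex a z.1) := am_jo_left (inc1 hT hJ hI1 hS1 ha)
  have i2 : Inc κ (jo (A1 lev l) (B1 lev l)) (Prod.map (SS f)^[p] (SS f)^[q])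
      (fun z => ex b z.2) := am_jo_right (inc2 hT hJ hI1 hS1 hb)
  have hz : κ[fun z => ex a z.1 * conj (ex b z.2)|jo (A1 lev l) (B1 lev l)] =ᵐ[κ] 0 :=
    (hLZ _ κ _ _ _ _ hSκ hJ.erg hIAκ hψ (Inc.mul i1 (Inc.conj i2))).resolve_right h
  have z1 : κ[fun z => F z.1 * (ex a z.1 * conj (ex b z.2))|jo (A1 lev l) (B1 lev l)] =ᵐ[κ] 0 :=
    ce_mul_zero hFA (hFab.mul hψ.ab).int hψ.ab.int hz
  have z2 : κ[fun z => F z.1 * (ex a z.1 * conj (ex b z.2))|B1 lev l] =ᵐ[κ] 0 :=
    ce_zero_lq lB lJ (lq_of_le le_jo_right) (hFab.mul hψ.ab).int z1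
  -- pull out and the tower property
  have hE : AB κ (fun z : T N × T N => ex a z.1 * F z.1) := ha1.ab.mul hFab
  have hbB : AM κ (BB N) (fun z : T N × T N => conj (ex b z.2)) :=
    Pool.Agent.Helper53.TWR.am_cm (mp2 hJ) ((uf_ex b).conj.1.stronglyMeasurable.aestronglyMeasurable)
  have s1 : κ[fun z => conj (ex b z.2) * (ex a z.1 * F z.1)|BB N] =ᵐ[κ]
      fun z => conj (ex b z.2) * (κ[fun z => ex a z.1 * F z.1|BB N]) z :=
    pullb hbB hb2.conj.ab hE.int
  have hle : LQ κ (B1 lev l) (BB N) :=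
    lq_of_le (MeasurableSpace.comap_mono (lm_AL l))
  have s2 := ce_tower (μ := κ) (F := fun z => conj (ex b z.2) * (ex a z.1 * F z.1)) lB lm_BB hle
    (hb2.conj.ab.mul hE).int
  have s3 : κ[κ[fun z => conj (ex b z.2) * (ex a z.1 * F z.1)|BB N]|B1 lev l] =ᵐ[κ]
      κ[fun z => conj (ex b z.2) * (κ[fun z => ex a z.1 * F z.1|BB N]) z|B1 lev l] := ce_congr s1
  have s4 : κ[fun z => conj (ex b z.2) * (ex a z.1 * F z.1)|B1 lev l] =ᵐ[κ]
      κ[fun z => F z.1 * (ex a z.1 * conj (ex b z.2))|B1 lev l] := by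
    refine ce_congr (Eventually.of_forall fun z => ?_)
    ring
  filter_upwards [z2, s2, s3, s4] with z h1 h2 h3 h4
  rw [← h3, h2, h4, h1]

/-- the conditional expectation as a function of the second coordinate -/
theorem exists_u (hJ : JN f p q κ) {m : ℕ} {E : T N × T N → ℂ} (hE : AB κ E)
    (hG : κ[E|BB N] =ᵐ[κ] κ[E|B1 lev m]) :
    ∃ u : T N → ℂ, AM (mm N) (AL lev m) u ∧ MemLp u 2 (mm N) ∧
      (κ[E|BB N] =ᵐ[κ] fun z => u z.2) := by
  have hP := hJ.prob
  obtain ⟨u, hu, huA, hue⟩ := Pool.Agent.Helper96.TWR.AM_factor (μ := κ) (μ' := mm N)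
    (π := (Prod.snd : T N × T N → T N)) (𝒜 := AL lev m) (lm_AL m) (G := κ[E|B1 lev m]) ce_am
  refine ⟨u, huA, ?_, hG.trans hue⟩
  obtain ⟨-, B, hB⟩ := hE.ce (lm_B1 (lev := lev) m)
  have h1 : ∀ᵐ z ∂κ, ‖u z.2‖ ≤ B := by
    filter_upwards [hB, hue] with z h1 h2
    rwa [← h2]
  have h2 : ∀ᵐ x ∂(mm N), ‖u x‖ ≤ B := by
    rw [← hJ.snd, ae_map_iff measurable_snd.aemeasurable (measurableSet_le hu.norm measurable_const)]
    exact h1
  exact MemLp.of_bound hu.aestronglyMeasurable B h2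

/-- Fourier coefficients from the components -/
theorem fco_comp (hJ : JN f p q κ) {l : ℕ} {V : T N × T N → ℂ} {u : T N → ℂ} (hV : AB κ V)
    (hu : AM (mm N) (AL lev (l + 1)) u) (hm : MemLp u 2 (mm N)) (hVu : V =ᵐ[κ] fun z => u z.2)
    {c : Fin N → ℤ}
    (h : κ[fun z => conj (ex (fun i => if lev i = l then c i else 0) z.2) * V z|B1 lev l] =ᵐ[κ] 0) :
    fco u c = 0 := by
  have hP := hJ.prob
  by_cases hc : ∃ i, c i ≠ 0 ∧ l + 1 ≤ lev i
  · obtain ⟨i, hi, hli⟩ := hc
    exact fco_zero hu hi hli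
  · have hc' : ∀ i, c i ≠ 0 → lev i ≤ l := by
      intro i hi
      by_contra h1
      exact hc ⟨i, hi, by omega⟩
    set b : Fin N → ℤ := fun i => if lev i = l then c i else 0 with hb
    set d : Fin N → ℤ := fun i => if lev i = l then 0 else c i with hd
    have hbd : c = b + d := by
      funext i
      by_cases h1 : lev i = l <;> simp [hb, hd, h1]
    have hdl : ∀ i, d i ≠ 0 → lev i < l := by
      intro i hi
      by_cases h1 : lev i = l
      · simp [hd, h1] at hi
      · have : c i ≠ 0 := by simpa [hd, h1] using hi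
        exact lt_of_le_of_ne (hc' i this) h1
    have hbu : UF κ (fun z : T N × T N => ex b z.2) := (uf_ex b).comp (mp2 hJ)
    have hdu : UF κ (fun z : T N × T N => ex d z.2) := (uf_ex d).comp (mp2 hJ)
    have hdm : AM κ (B1 lev l) (fun z : T N × T N => conj (ex d z.2)) :=
      am_conj (Pool.Agent.Helper53.TWR.am_cm (mp2 hJ) (am_of (meas_ex hdl)))
    have h1 : ∫ z, conj (ex d z.2) * (conj (ex b z.2) * V z) ∂κ = 0 :=
      int_zero_of_ce (lm_B1 l) hdm (hdu.conj.ab.mul (hbu.conj.ab.mul hV)).int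
        (hbu.conj.ab.mul hV).int h
    have h2 : fco u c = ∫ z, conj (ex c z.2) * u z.2 ∂κ := by
      unfold fco
      have hm1 : AEStronglyMeasurable (fun x => conj (ex c x) * u x) (κ.map Prod.snd) := by
        rw [hJ.snd]
        exact (uf_ex c).conj.1.aestronglyMeasurable.mul hm.1
      rw [← integral_map (φ := Prod.snd) measurable_snd.aemeasurable hm1, hJ.snd]
    rw [h2, ← h1]
    refine integral_congr_ae ?_
    filter_upwards [hVu] with z hz
    rw [hz, hbd, Pool.Agent.Helper53.TWR.ex_add, map_mul]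
    ring

/-- JG2 -/
theorem st_JG2 (hLZ : ST_LZ) (hDNS : ST_DNS) (hTRM : ST_TRM) (hMPS : ST_MPS)
    (hIAL : ST_IAL) (hPLJ : ST_PLJ) (hJSW : ST_JSW) : ST_JG2 := by
  intro N lev f f' p q κ hT hMR hEG hNU hp hq hJ l a a' ha ha' haa F F' hF hF' hA hA'
  have hP := hJ.prob
  obtain ⟨hJ', hsw⟩ := hJSW N f p q κ hJ
  have hX : ∀ (l : ℕ) (a : Fin N → ℤ), a ≠ 0 → la lev l a → ∀ j ≤ l,
      ¬ AM κ (jo (A1 lev j) (B1 lev l)) (fun z => ex a z.2) := by
    intro l a ha hla j hj h
    exact hPLJ N lev f f' q p _ hT hMR hEG hNU hq hp hJ' l a ha hla j hj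
      ((hsw lev l j (fun z => ex a z.1)).2 h)
  have hG := st_JG1 hLZ hDNS hTRM hMPS hIAL N lev f f' p q κ hT hJ hX (l + 1)
  have gen : ∀ (a : Fin N → ℤ) (F : T N → ℂ), la lev l a → BF F → AM (mm N) (AL lev l) F →
      AB κ (fun z : T N × T N => ex a z.1 * F z.1) ∧
      κ[fun z => ex a z.1 * F z.1|BB N] =ᵐ[κ] κ[fun z => ex a z.1 * F z.1|B1 lev (l + 1)] := by
    intro a F ha hF hA
    have hb : BF (fun x => ex a x * F x) :=
      bf_mul ⟨(uf_ex a).1, 1, fun x => (norm_ex a x).le⟩ hF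
    refine ⟨hb.ab.comp (mp1 hJ), hG _ hb (am_mul ?_ (am_mono (AL_mono (Nat.le_succ l)) hA))⟩
    rw [AL_succ]
    exact am_jo_right (am_sg ⟨a, ha, rfl⟩)
  obtain ⟨hE, hGE⟩ := gen a F ha hF hA
  obtain ⟨hE', hGE'⟩ := gen a' F' ha' hF' hA'
  obtain ⟨u, huA, hu2, hue⟩ := exists_u hJ hE hGE
  obtain ⟨u', huA', hu2', hue'⟩ := exists_u hJ hE' hGE'
  have key : ∫ x, u x * conj (u' x) ∂(mm N) = 0 := by
    refine parseval_zero hu2 hu2' fun c => ?_
    have hb : la lev l (fun i => if lev i = l then c i else 0) := by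
      intro i hi
      by_contra h
      exact hi (if_neg h)
    by_cases h1 : AM κ (jo (A1 lev l) (B1 lev l))
        (fun z => ex a z.1 * conj (ex (fun i => if lev i = l then c i else 0) z.2))
    · by_cases h2 : AM κ (jo (A1 lev l) (B1 lev l))
          (fun z => ex a' z.1 * conj (ex (fun i => if lev i = l then c i else 0) z.2))
      · exfalso
        refine hPLJ N lev f f' p q κ hT hMR hEG hNU hp hq hJ l (a - a') (sub_ne_zero.2 haa) ?_ l
          le_rfl (am_congr (am_mul h1 (am_conj h2)) (Eventually.of_forall fun z => ?_))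
        · intro i hi
          by_cases h3 : a i = 0
          · refine ha' i fun h4 => hi ?_
            rw [Pi.sub_apply, h3, h4, sub_zero]
          · exact ha i h3
        · show ex a z.1 * conj (ex _ z.2) * conj (ex a' z.1 * conj (ex _ z.2)) = ex (a - a') z.1
          rw [sub_eq_add_neg, Pool.Agent.Helper53.TWR.ex_add, Pool.Agent.Helper53.TWR.ex_neg,
            map_mul, Complex.conj_conj]
          have := Pool.Agent.Helper53.TWR.ex_mc (fun i => if lev i = l then c i else 0) z.2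
          linear_combination (ex a z.1 * conj (ex a' z.1)) * this
      · right
        exact fco_comp hJ (hE'.ce lm_BB) huA' hu2' hue'
          (comp_zero hLZ hTRM hMPS hIAL hT hJ ha' hb hF' hA' h2)
    · left
      exact fco_comp hJ (hE.ce lm_BB) huA hu2 hue
        (comp_zero hLZ hTRM hMPS hIAL hT hJ ha hb hF hA h1)
  rw [← key]
  have hm1 : AEStronglyMeasurable (fun x => u x * conj (u' x)) (κ.map Prod.snd) := by
    rw [hJ.snd]
    exact hu2.1.mul (Complex.continuous_conj.comp_aestronglyMeasurable hu2'.1)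
  have e : ∫ x, u x * conj (u' x) ∂(mm N) = ∫ z, u z.2 * conj (u' z.2) ∂κ := by
    rw [← integral_map (φ := Prod.snd) measurable_snd.aemeasurable hm1, hJ.snd]
  rw [e]
  refine integral_congr_ae ?_
  filter_upwards [hue, hue'] with z h1 h2
  rw [h1, h2]

end main

end Pool.Agent.Helper41.TWR
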