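import Pool.Agent.Helper41.TWR.Base

/-!
Sheet TW (MP_7a8f48_an), row TRV: functions which are invariant under the translations of the top
level.
-/

open MeasureTheory Filter Topology Finset
open scoped ComplexConjugate

namespace Pool.Agent.Helper41.TWR

open Pool.Agent.Helper98.TW
open Pool.Agent.Helper16.AZ (T mm)

variable {N : ℕ} {lev : Fin N → ℕ}

/-- TRV -/
theorem st_TRV : ST_TRV := by
  intro N lev l F _ hAM hinv
  obtain ⟨g, hg, hdep, hFg⟩ := am_AL_iff.1 hAM
  -- the translations preserve the measure
  have hmp : ∀ s : T N, MeasurePreserving (fun x => x + s) (mm N) (mm N) := fun s =>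
    measurePreserving_add_right (mm N) s
  have hg1 : ∀ t, ∀ᵐ x ∂(mm N), g (x + pk lev l t) = g x := by
    intro t
    filter_upwards [hinv t, hFg, (hmp (pk lev l t)).quasiMeasurePreserving.ae hFg] with x h1 h2 h3
    rw [← h3, h1, h2]
  have hmeas : Measurable (fun z : T N × T N => g (z.1 + pk lev l z.2)) :=
    hg.comp (measurable_fst.add ((measurable_pk l).comp measurable_snd))
  have hset : MeasurableSet {z : T N × T N | g (z.1 + pk lev l z.2) = g z.1} :=
    measurableSet_eq_fun hmeas (hg.comp measurable_fst)
  have hae : ∀ᵐ x ∂(mm N), ∀ᵐ t ∂(mm N), g (x + pk lev l t) = g x :=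
    (Measure.ae_ae_comm hset).2 (Eventually.of_forall hg1)
  let G : T N → ℂ := fun x => ∫ t, g (x + pk lev l t) ∂(mm N)
  have hGm : Measurable G := by
    have h1 : StronglyMeasurable (fun z : T N × T N => g (z.1 + pk lev l z.2)) :=
      hmeas.stronglyMeasurable
    exact h1.integral_prod_right.measurable
  have hGd : ∀ x, G (tr lev l x) = G x := by
    intro x
    show ∫ t, g (tr lev l x + pk lev l t) ∂(mm N) = ∫ t, g (x + pk lev l t) ∂(mm N)
    rw [← integral_add_right_eq_self (fun t => g (tr lev l x + pk lev l t)) x]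
    refine integral_congr_ae (Eventually.of_forall fun t => ?_)
    show g (tr lev l x + pk lev l (t + x)) = g (x + pk lev l t)
    rw [← hdep (tr lev l x + pk lev l (t + x)), ← hdep (x + pk lev l t)]
    congr 1
    funext i
    simp only [tr_apply, pk_apply, Pi.add_apply]
    by_cases h : lev i < l + 1
    · rw [if_pos h, if_pos h]
      by_cases h1 : lev i = l
      · rw [if_neg (by omega), if_pos h1, if_pos h1, zero_add, add_comm]
      · rw [if_pos (by omega), if_neg h1, if_neg h1]
    · rw [if_neg h, if_neg h]
  refine am_AL_iff.2 ⟨G, hGm, hGd, ?_⟩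
  filter_upwards [hFg, hae] with x h1 h2
  rw [h1]
  show g x = ∫ t, g (x + pk lev l t) ∂(mm N)
  rw [integral_congr_ae h2, integral_const]
  simp

end Pool.Agent.Helper41.TWR
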