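import Pool.Agent.Helper98.TW.Basic

/-!
Sheet TW (MP_7a8f48_an): shared lemmas for the rows on the torus.
-/

open MeasureTheory Filter Topology Finset
open scoped ComplexConjugate

namespace Pool.Agent.Helper41.TWR

open Pool.Agent.Helper98.TW
open Pool.Agent.Helper16.AZ (T mm)

variable {N : ℕ} {lev : Fin N → ℕ}

theorem tr_apply (l : ℕ) (x : T N) (i : Fin N) : tr lev l x i = if lev i < l then x i else 0 := rfl

theorem pk_apply (l : ℕ) (x : T N) (i : Fin N) : pk lev l x i = if lev i = l then x i else 0 := rfl

/-- truncation of a truncation -/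
theorem tr_tr {k l : ℕ} (h : k ≤ l) (x : T N) : tr lev k (tr lev l x) = tr lev k x := by
  funext i
  simp only [tr_apply]
  by_cases h1 : lev i < k
  · rw [if_pos h1, if_pos (h1.trans_le h), if_pos h1]
  · rw [if_neg h1, if_neg h1]

theorem measurable_tr (l : ℕ) : Measurable (tr lev l : T N → T N) := by
  refine measurable_pi_lambda _ fun i => ?_
  simp only [tr_apply]
  by_cases h : lev i < l
  · simp only [if_pos h]
    exact measurable_pi_apply i
  · simp only [if_neg h]
    exact measurable_const

theorem measurable_pk (l : ℕ) : Measurable (pk lev l : T N → T N) := by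
  refine measurable_pi_lambda _ fun i => ?_
  simp only [pk_apply]
  by_cases h : lev i = l
  · simp only [if_pos h]
    exact measurable_pi_apply i
  · simp only [if_neg h]
    exact measurable_const

/-- `AL` is contained in the sigma algebra of the torus -/
theorem lm_AL (l : ℕ) : Lm (AL lev l) := (measurable_tr l).comap_le

/-- a function which is measurable for `AL` depends only on the levels `< l` -/
theorem dep_of_meas {l : ℕ} {g : T N → ℂ} (hg : Measurable[AL lev l] g) {x y : T N}
    (h : tr lev l x = tr lev l y) : g x = g y := by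
  obtain ⟨u, -, hu⟩ := hg (measurableSet_singleton (g y))
  have h1 : y ∈ tr lev l ⁻¹' u := by
    rw [hu]
    exact rfl
  have h2 : x ∈ tr lev l ⁻¹' u := by
    show tr lev l x ∈ u
    rw [h]
    exact h1
  rw [hu] at h2
  exact h2

/-- conversely -/
theorem meas_of_dep {l : ℕ} {g : T N → ℂ} (hg : Measurable g) (h : ∀ x, g (tr lev l x) = g x) :
    Measurable[AL lev l] g := by
  have h1 : g = g ∘ tr lev l := funext fun x => (h x).symm
  rw [h1]
  intro s hs
  exact ⟨g ⁻¹' s, hg hs, rfl⟩

/-- `AM` for the sigma algebras of the levels -/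
theorem am_AL_iff {l : ℕ} {F : T N → ℂ} : AM (mm N) (AL lev l) F ↔
    ∃ g : T N → ℂ, Measurable g ∧ (∀ x, g (tr lev l x) = g x) ∧ F =ᵐ[mm N] g := by
  rw [am_iff]
  constructor
  · rintro ⟨g, hg, h⟩
    exact ⟨g, hg.mono (lm_AL l) le_rfl, fun x => dep_of_meas hg (tr_tr le_rfl x), h⟩
  · rintro ⟨g, hg, hd, h⟩
    exact ⟨g, meas_of_dep hg hd, h⟩

theorem measurable_SS {f : Fin N → T N → U} (hf : ∀ i, Measurable (f i)) : Measurable (SS f) := by
  refine measurable_pi_lambda _ fun i => ?_
  exact (measurable_pi_apply i).add (hf i)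

/-- the functions of a tower depend on the lower levels only -/
theorem dep_le {f : Fin N → T N → U} (hf : Tow lev f) {i : Fin N} {l : ℕ} (h : lev i ≤ l)
    (x : T N) : f i (tr lev l x) = f i x := by
  rw [← hf.dep i (tr lev l x), tr_tr h, hf.dep]

/-- the transformation on the levels `< l` -/
theorem tr_SS {f : Fin N → T N → U} (hf : Tow lev f) (l : ℕ) (x : T N) :
    tr lev l (SS f (tr lev l x)) = tr lev l (SS f x) := by
  funext i
  simp only [tr_apply]
  by_cases h : lev i < l
  · rw [if_pos h, if_pos h]
    show tr lev l x i + f i (tr lev l x) = x i + f i x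
    rw [dep_le hf h.le, tr_apply, if_pos h]
  · rw [if_neg h, if_neg h]

end Pool.Agent.Helper41.TWR
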